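import Pool.Agent.Y77.AW2.UnrM
import Pool.Agent.Y140.AW.Stm2

set_option autoImplicit false

/-!
Project AW, part 2: a criterion for unramified extensions of `κ[t]`.
-/

namespace Pool.Agent.Y77.AW2

open Polynomial

/-- UNR -/
theorem t_unr : Pool.Agent.Y140.AW.St_unr :=
  fun κ L _ _ _ _ _ _ _ _ h q _ => unr κ L h q

end Pool.Agent.Y77.AW2
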