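import Mathlib

set_option autoImplicit false

/-!
Project AW, part 2: a criterion for unramified extensions of `κ[t]` (Mathlib only).
-/

open Polynomial

namespace Pool.Agent.Y77.AW2

section

variable (A K L : Type) [CommRing A] [Field K] [Field L] [Algebra A K] [Algebra K L] [Algebra A L]
  [IsScalarTower A K L]

theorem smulCommClass_aux : SMulCommClass (L ≃ₐ[K] L) A L where
  smul_comm g a x := by
    rw [Algebra.smul_def, Algebra.smul_def, smul_mul', IsScalarTower.algebraMap_apply A K L]
    congr 1
    exact g.commutes _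

end

attribute [local instance] smulCommClass_aux

/-- A criterion for being unramified. -/
theorem unr (κ L : Type) [Field κ] [Finite κ] [Field L] [Algebra (RatFunc κ) L] [Algebra κ[X] L]
    [IsScalarTower κ[X] (RatFunc κ) L] [FiniteDimensional (RatFunc κ) L] [IsGalois (RatFunc κ) L]
    (h : ∀ τ : L ≃ₐ[RatFunc κ] L, τ ≠ 1 → ∃ b : L, IsIntegral κ[X] b ∧ τ b ≠ b ∧
      IsIntegral κ[X] (τ b - b)⁻¹)
    (q : Ideal (integralClosure κ[X] L)) [hq : q.IsPrime] : Algebra.IsUnramifiedAt κ[X] q := by
  classical
  have hfr : IsFractionRing (integralClosure κ[X] L) L :=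
    integralClosure.isFractionRing_of_finite_extension (RatFunc κ) L
  have hdd : IsDedekindDomain (integralClosure κ[X] L) :=
    integralClosure.isDedekindDomain κ[X] (RatFunc κ) L
  have hfin : Module.Finite κ[X] (integralClosure κ[X] L) :=
    IsIntegralClosure.finite κ[X] (RatFunc κ) L (integralClosure κ[X] L)
  have hinj : Function.Injective (algebraMap κ[X] L) := by
    rw [IsScalarTower.algebraMap_eq κ[X] (RatFunc κ) L]
    exact (algebraMap (RatFunc κ) L).injective.comp (IsFractionRing.injective κ[X] (RatFunc κ))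
  have hinj' : Function.Injective (algebraMap κ[X] (integralClosure κ[X] L)) := by
    intro a b hab
    exact hinj (congrArg (algebraMap (integralClosure κ[X] L) L) hab)
  have htf : Module.IsTorsionFree κ[X] (integralClosure κ[X] L) := by
    rw [Module.isTorsionFree_iff_algebraMap_injective]
    exact hinj'
  have hfree : Module.Free κ[X] (integralClosure κ[X] L) := inferInstance
  by_cases hq0 : q = ⊥
  · subst hq0
    have hloc : IsFractionRing (integralClosure κ[X] L)
        (Localization.AtPrime (⊥ : Ideal (integralClosure κ[X] L))) := by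
      simpa [Ideal.primeCompl_bot] using
        Localization.isLocalization (M := (⊥ : Ideal (integralClosure κ[X] L)).primeCompl)
    have h1 : Algebra.FormallyUnramified κ[X] (RatFunc κ) :=
      Algebra.FormallyUnramified.of_isLocalization (nonZeroDivisors κ[X])
    have h2 : Algebra.FormallyUnramified (RatFunc κ) L :=
      Algebra.FormallyUnramified.of_isSeparable _ _
    have h3 : Algebra.FormallyUnramified κ[X] L :=
      Algebra.FormallyUnramified.comp κ[X] (RatFunc κ) L
    exact Algebra.FormallyUnramified.of_equiv ((IsLocalization.algEquiv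
      (nonZeroDivisors (integralClosure κ[X] L)) L
      (Localization.AtPrime (⊥ : Ideal (integralClosure κ[X] L)))).restrictScalars κ[X])
  · have hp0 : q.under κ[X] ≠ ⊥ := fun h0 => hq0 (Ideal.eq_bot_of_comap_eq_bot h0)
    have hpm : (q.under κ[X]).IsMaximal := Ideal.IsPrime.isMaximal inferInstance hp0
    let _ : Field (κ[X] ⧸ q.under κ[X]) := Ideal.Quotient.field _
    have hf1 : Module.Finite κ (κ[X] ⧸ q.under κ[X]) :=
      finite_of_finite_type_of_isJacobsonRing κ _
    have hf2 : Finite (κ[X] ⧸ q.under κ[X]) := Module.finite_of_finite κ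
    have hf3 : Finite (q.under κ[X]).ResidueField :=
      Finite.of_surjective _ (Ideal.bijective_algebraMap_quotient_residueField (q.under κ[X])).2
    have hperf : PerfectField (q.under κ[X]).ResidueField := inferInstance
    have hgal : IsGaloisGroup (L ≃ₐ[RatFunc κ] L) κ[X] (integralClosure κ[X] L) :=
      IsGaloisGroup.of_isFractionRing (L ≃ₐ[RatFunc κ] L) κ[X] (integralClosure κ[X] L)
        (RatFunc κ) L
    rw [← Ideal.ramificationIdx_eq_one_iff,
      ← Ideal.ramificationIdxIn_eq_ramificationIdx (q.under κ[X]) q (L ≃ₐ[RatFunc κ] L),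
      ← Ideal.card_inertia_eq_ramificationIdxIn (G := L ≃ₐ[RatFunc κ] L) (q.under κ[X]) q]
    rw [Subgroup.card_eq_one, Subgroup.eq_bot_iff_forall]
    intro τ hτ
    by_contra hne
    obtain ⟨b, hb1, hb2, hb3⟩ := h τ hne
    let β : integralClosure κ[X] L := ⟨b, hb1⟩
    let γ : integralClosure κ[X] L := ⟨(τ b - b)⁻¹, hb3⟩
    have h4 : τ • β - β ∈ q := hτ β
    have h5 : (τ • β - β) * γ = 1 := by
      apply Subtype.ext
      exact mul_inv_cancel₀ (sub_ne_zero.2 hb2)
    have h6 : (1 : integralClosure κ[X] L) ∈ q := by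
      rw [← h5]
      exact q.mul_mem_right _ h4
    exact hq.ne_top ((Ideal.eq_top_iff_one q).2 h6)

end Pool.Agent.Y77.AW2
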